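import Pool.Agent.H96.AL.Targets3

/-!
Modules OS and PG of board al_modules.
-/

open Topology Set Filter Real

namespace Pool.Agent.H83.AL

open Pool.Agent.H96.AL

theorem os_ (hCC : T_CC) : T_OS := by
  intro X _ m a b κ
  rw [isOpen_iff_mem_nhds]
  intro p hp
  obtain ⟨h1, h2⟩ := hp
  have hc : ∀ (u v : X), p ≠ u → p ≠ v → ∀ c : ℝ, cc (dist p u) (dist p v) (dist u v) < c →
      ∀ᶠ w in 𝓝 p, cc (dist w u) (dist w v) (dist u v) < c := by
    intro u v hu hv c h
    have hcont : ContinuousAt (fun w : X => cc (dist w u) (dist w v) (dist u v)) p := by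
      have h3 := hCC.2.1 (dist p u) (dist p v) (dist u v) (dist_pos.2 hu) (dist_pos.2 hv)
      have h4 : ContinuousAt (fun w : X => (dist w u, dist w v, dist u v)) p := by fun_prop
      exact ContinuousAt.comp (g := fun q : ℝ × ℝ × ℝ => cc q.1 q.2.1 q.2.2)
        (f := fun w : X => (dist w u, dist w v, dist u v)) h3 h4
    exact hcont.eventually_lt_const h
  have hn : ∀ u : X, p ≠ u → ∀ᶠ w in 𝓝 p, w ≠ u := fun u hu =>
    isOpen_ne.mem_nhds hu
  have e1 : ∀ᶠ w in 𝓝 p, ∀ i, w ≠ a i ∧ w ≠ b i ∧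
      cc (dist w (a i)) (dist w (b i)) (dist (a i) (b i)) < -1 + κ ^ 2 := by
    rw [Filter.eventually_all]
    intro i
    exact (hn _ (h1 i).1).and ((hn _ (h1 i).2.1).and
      (hc _ _ (h1 i).1 (h1 i).2.1 _ (h1 i).2.2))
  have e2 : ∀ᶠ w in 𝓝 p, ∀ i j, i ≠ j →
      cc (dist w (a i)) (dist w (a j)) (dist (a i) (a j)) < κ ∧
      cc (dist w (a i)) (dist w (b j)) (dist (a i) (b j)) < κ ∧
      cc (dist w (b i)) (dist w (b j)) (dist (b i) (b j)) < κ := by
    rw [Filter.eventually_all]
    intro i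
    rw [Filter.eventually_all]
    intro j
    by_cases hij : i = j
    · exact Filter.Eventually.of_forall fun w h => absurd hij h
    · have h3 := h2 i j hij
      filter_upwards [hc _ _ (h1 i).1 (h1 j).1 _ h3.1, hc _ _ (h1 i).1 (h1 j).2.1 _ h3.2.1,
        hc _ _ (h1 i).2.1 (h1 j).2.1 _ h3.2.2] with w w1 w2 w3 _
      exact ⟨w1, w2, w3⟩
  filter_upwards [e1, e2] with w w1 w2
  exact ⟨w1, w2⟩

/-- contraction of a separated set towards a point -/
lemma contract {X : Type} [MetricSpace X] {D : ℝ} (hCO : T_CO) (hS : Sp X D) (v : X)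
    (s : Finset X) {ε lam : ℝ} (hε : 0 < ε) (hs : Sepd ε s) (h0 : 0 < lam) (h1 : lam ≤ 1) :
    ∃ s' : Finset X, s'.card = s.card ∧ Sepd (lam * ε / cosh D ^ 2) s' ∧
      ∀ u ∈ s', dist v u ≤ lam * D := by
  classical
  have hcD : 0 < cosh D ^ 2 := by positivity
  have hex : ∀ u : X, ∃ c : X, Btw v c u ∧ dist v c = lam * dist v u := by
    intro u
    obtain ⟨γ, g0, g1, g2⟩ := hS.geo v u
    have hd : 0 ≤ dist v u := dist_nonneg
    have ht : lam * dist v u ∈ Icc (0 : ℝ) (dist v u) := ⟨by positivity, by nlinarith⟩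
    have hz : (0 : ℝ) ∈ Icc (0 : ℝ) (dist v u) := ⟨le_rfl, hd⟩
    have ho : dist v u ∈ Icc (0 : ℝ) (dist v u) := ⟨hd, le_rfl⟩
    have e1 := g2 0 hz _ ht
    have e2 := g2 _ ht _ ho
    rw [g0, zero_sub, abs_neg, abs_of_nonneg ht.1] at e1
    rw [g1, abs_of_nonpos (by linarith [ht.2])] at e2
    exact ⟨γ (lam * dist v u), by unfold Pool.Agent.H96.AL.Btw; rw [e1, e2]; ring, e1⟩
  choose c hc1 hc2 using hex
  have key : ∀ u w : X, lam * dist u w ≤ cosh D ^ 2 * dist (c u) (c w) := fun u w =>
    hCO X D hS v u w (c u) (c w) lam h0 h1 (hc1 u) (hc1 w) (hc2 u) (hc2 w)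
  have key2 : ∀ u ∈ s, ∀ w ∈ s, u ≠ w → lam * ε / cosh D ^ 2 ≤ dist (c u) (c w) := by
    intro u hu w hw huw
    rw [div_le_iff₀ hcD]
    calc lam * ε ≤ lam * dist u w := by
          have := hs u hu w hw huw
          gcongr
      _ ≤ cosh D ^ 2 * dist (c u) (c w) := key u w
      _ = dist (c u) (c w) * cosh D ^ 2 := by ring
  have hpos : 0 < lam * ε / cosh D ^ 2 := by positivity
  refine ⟨s.image c, ?_, ?_, ?_⟩
  · apply Finset.card_image_of_injOn
    intro u hu w hw huw
    by_contra hne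
    have := key2 u hu w hw hne
    have huw' : c u = c w := huw
    rw [huw', dist_self] at this
    linarith
  · intro x hx y hy hxy
    obtain ⟨u, hu, rfl⟩ := Finset.mem_image.1 hx
    obtain ⟨w, hw, rfl⟩ := Finset.mem_image.1 hy
    exact key2 u hu w hw (fun h => hxy (by rw [h]))
  · intro x hx
    obtain ⟨u, hu, rfl⟩ := Finset.mem_image.1 hx
    rw [hc2]
    have := hS.diam v u
    gcongr

theorem pg (hCH : T_CH) (hPL : T_PL) (hCO : T_CO) (hCA : T_CA) : T_PG := by
  intro X _ D hS hdim hne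
  obtain ⟨n, a, p, ρ, c, hρ, hc, H1, H2⟩ := hCH X D hS hdim hne
  obtain ⟨c₁, C₁, hc₁, hC₁, hP⟩ := hPL X n a p ρ c hρ hc H1 H2
  have hD : 1 ≤ D := hS.one_le
  have hD0 : 0 < D := by linarith
  set K : ℝ := cosh D ^ 2 with hK
  have hK1 : 1 ≤ K := by
    have : 1 ≤ cosh D := one_le_cosh D
    rw [hK]
    nlinarith
  have hK0 : 0 < K := by linarith
  set M : ℝ := 2 * D * K with hM
  have hM0 : 0 < M := by positivity
  refine ⟨n, min c₁ 1 / M ^ n, (12 * K) ^ n, by positivity, by positivity, ?_⟩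
  intro x r ε hr hrD hε hεr
  refine ⟨?_, ?_⟩
  · by_cases hcase : M * ε / r ≤ 1
    · have hε₀ : 0 < M * ε / r := by positivity
      obtain ⟨s, hs1, hs2, hs3⟩ := (hP (M * ε / r) hε₀ hcase).1
      have hl0 : 0 < r / (2 * D) := by positivity
      have hl1 : r / (2 * D) ≤ 1 := by
        rw [div_le_one (by positivity)]
        linarith
      obtain ⟨s', h1, h2, h3⟩ := contract hCO hS x s hε₀ hs2 hl0 hl1
      refine ⟨s', ?_, ?_, ?_⟩
      · intro u hu
        rw [Metric.mem_ball, dist_comm]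
        have h4 := h3 u hu
        have h5 : r / (2 * D) * D = r / 2 := by field_simp
        rw [h5] at h4
        linarith
      · have h4 : r / (2 * D) * (M * ε / r) / cosh D ^ 2 = ε := by
          rw [← hK, hM]
          field_simp
        rw [h4] at h2
        exact h2
      · rw [h1]
        refine le_trans ?_ hs3
        have h4 : (1 / (M * ε / r)) ^ n = (r / ε) ^ n / M ^ n := by
          rw [← div_pow]
          congr 1
          field_simp
        rw [h4]
        have h5 : min c₁ 1 ≤ c₁ := min_le_left _ _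
        have h6 : 0 ≤ (r / ε) ^ n / M ^ n := by positivity
        calc min c₁ 1 / M ^ n * (r / ε) ^ n = min c₁ 1 * ((r / ε) ^ n / M ^ n) := by ring
          _ ≤ c₁ * ((r / ε) ^ n / M ^ n) := by gcongr
    · push Not at hcase
      have h4 : r / ε ≤ M := by
        rw [lt_div_iff₀ hr] at hcase
        rw [div_le_iff₀ hε]
        linarith
      refine ⟨{x}, ?_, ?_, ?_⟩
      · intro u hu
        simp only [Finset.coe_singleton, Set.mem_singleton_iff] at hu
        rw [hu]
        exact Metric.mem_ball_self hr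
      · intro u hu w hw huw
        rw [Finset.mem_singleton] at hu hw
        exact absurd (hu.trans hw.symm) huw
      · rw [Finset.card_singleton]
        have h5 : (r / ε) ^ n ≤ M ^ n := by gcongr
        have h6 : min c₁ 1 ≤ 1 := min_le_right _ _
        have h7 : 0 < M ^ n := by positivity
        have h8 : 0 < min c₁ 1 := by positivity
        calc min c₁ 1 / M ^ n * (r / ε) ^ n ≤ 1 / M ^ n * M ^ n := by gcongr
          _ = ((1 : ℕ) : ℝ) := by
            rw [one_div, inv_mul_cancel₀ h7.ne']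
            simp
  · set lam : ℝ := min ρ 1 / (2 * D) with hlam
    have hl0 : 0 < lam := by positivity
    have hl1 : lam ≤ 1 := by
      rw [hlam, div_le_one (by positivity)]
      have := min_le_right ρ 1
      linarith
    have hwhole : ∀ ε : ℝ, 0 < ε → ε ≤ 1 →
        PackLe (univ : Set X) ε (C₁ * (K / lam) ^ n * (1 / ε) ^ n) := by
      intro ε hε hε1 s _ hs
      obtain ⟨s', h1, h2, h3⟩ := contract hCO hS p s hε hs hl0 hl1
      have hpos : 0 < lam * ε / cosh D ^ 2 := by positivity
      have hle : lam * ε / cosh D ^ 2 ≤ 1 := by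
        rw [div_le_one (by positivity), ← hK]
        nlinarith
      have h4 := (hP _ hpos hle).2 s' (by
        intro u hu
        rw [Metric.mem_ball, dist_comm]
        have h5 := h3 u hu
        have h6 : lam * D = min ρ 1 / 2 := by
          rw [hlam]
          field_simp
        rw [h6] at h5
        have := min_le_left ρ 1
        linarith) h2
      rw [h1] at h4
      refine h4.trans (le_of_eq ?_)
      rw [mul_assoc, ← mul_pow]
      congr 2
      rw [← hK]
      field_simp
    have h5 := hCA X D hS n (C₁ * (K / lam) ^ n) (by positivity) hwhole x r ε hr hε hεr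
    rw [← hK] at h5
    exact h5

end Pool.Agent.H83.AL
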